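import Pool.Agent.helper55.FPZ.SpecK

/-!
# Row fpz:FB2
-/

set_option autoImplicit false

namespace Pool.Agent.FPZ

open Matrix Polynomial Pool.Agent.PL Pool.Agent.X4

/-- one minimal prime -/
theorem FB2_one (hFB1 : FB1_stmt) (A : Type) [CommRing A] [Algebra ℚ A] [Algebra.FiniteType ℚ A]
    (S : Set A)
    (hS : ∀ (K : Type) [Field K] [CharZero K] (φ : A →+* K), ∀ s ∈ S, IsAlgebraic ℚ (φ s))
    (P : Ideal A) [P.IsPrime] :
    ∃ (L : Type) (_ : Field L) (_ : NumberField L) (h : A ⧸ P →+* L),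
      ∀ (F : Type) [Field F] [IsAlgClosed F] (φ : A ⧸ P →+* F), ∃ τ : L →+* F,
        ∀ s ∈ S, φ (Ideal.Quotient.mk P s) = τ (h (Ideal.Quotient.mk P s)) := by
  have halg : ∀ s ∈ (Ideal.Quotient.mk P) '' S, IsAlgebraic ℚ s := by
    rintro _ ⟨s, hs, rfl⟩
    have : CharZero (FractionRing (A ⧸ P)) := algebraRat.charZero _
    have h := hS (FractionRing (A ⧸ P))
      ((algebraMap (A ⧸ P) (FractionRing (A ⧸ P))).comp (Ideal.Quotient.mk P)) s hs
    rw [RingHom.comp_apply] at h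
    exact (isAlgebraic_algebraMap_iff (IsFractionRing.injective (A ⧸ P) (FractionRing (A ⧸ P)))).1 h
  have : Algebra.FiniteType ℚ (A ⧸ P) :=
    Algebra.FiniteType.of_surjective (Ideal.Quotient.mkₐ ℚ P) (Ideal.Quotient.mkₐ_surjective ℚ P)
  obtain ⟨L, i1, i2, h, hh⟩ := hFB1 (A ⧸ P) ((Ideal.Quotient.mk P) '' S) halg
  refine ⟨L, i1, i2, h, ?_⟩
  intro F _ _ φ
  obtain ⟨τ, hτ⟩ := hh F φ
  exact ⟨τ, fun s hs => hτ _ ⟨s, hs, rfl⟩⟩

/-- extension of embeddings to an algebraic extension -/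
theorem FB2_ext (L M F : Type) [Field L] [NumberField L] [Field M] [NumberField M] [Field F]
    [IsAlgClosed F] (ι : L →+* M) (τ : L →+* F) : ∃ σ : M →+* F, ∀ x, σ (ι x) = τ x := by
  let : Algebra L M := ι.toAlgebra
  let : Algebra L F := τ.toAlgebra
  have : IsScalarTower ℚ L M := IsScalarTower.of_algebraMap_eq' (Subsingleton.elim _ _)
  have : Algebra.IsAlgebraic L M := Algebra.IsAlgebraic.tower_top (K := ℚ) L
  let σ : M →ₐ[L] F := IsAlgClosed.lift
  exact ⟨σ.toRingHom, fun x => σ.commutes x⟩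

/-- Row FB2. -/
theorem FB2 (hFB1 : FB1_stmt) : FB2_stmt := by
  classical
  intro A _ _ _ S hS
  have : IsNoetherianRing A := Algebra.FiniteType.isNoetherianRing ℚ A
  have hfin : (minimalPrimes A).Finite := minimalPrimes.finite_of_isNoetherianRing A
  have : Finite (minimalPrimes A) := hfin.to_subtype
  have hprime : ∀ P : minimalPrimes A, P.1.IsPrime := fun P => P.2.1.1
  have hone : ∀ P : minimalPrimes A, ∃ (L : Type) (_ : Field L) (_ : NumberField L)
      (h : A ⧸ P.1 →+* L), ∀ (F : Type) [Field F] [IsAlgClosed F] (φ : A ⧸ P.1 →+* F),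
        ∃ τ : L →+* F, ∀ s ∈ S,
          φ (Ideal.Quotient.mk P.1 s) = τ (h (Ideal.Quotient.mk P.1 s)) := by
    intro P
    have := hprime P
    exact FB2_one hFB1 A S hS P.1
  choose L i1 i2 h hh using hone
  -- the composite field
  let e : ∀ P : minimalPrimes A, L P →ₐ[ℚ] AlgebraicClosure ℚ := fun P => IsAlgClosed.lift
  have : ∀ P : minimalPrimes A, FiniteDimensional ℚ (e P).fieldRange := fun P =>
    LinearMap.finiteDimensional_range (e P).toLinearMap
  let M : IntermediateField ℚ (AlgebraicClosure ℚ) := ⨆ P : minimalPrimes A, (e P).fieldRange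
  have hM : FiniteDimensional ℚ M :=
    IntermediateField.finiteDimensional_iSup_of_finite
  have : NumberField M := ⟨⟩
  have hmem : ∀ (P : minimalPrimes A) (x : L P), (e P) x ∈ M := fun P x =>
    (le_iSup (fun P : minimalPrimes A => (e P).fieldRange) P) ⟨x, rfl⟩
  let ι : ∀ P : minimalPrimes A, L P →+* M := fun P =>
    ((e P).toRingHom).codRestrict M (hmem P)
  refine ⟨M, inferInstance, inferInstance,
    Set.range (fun P : minimalPrimes A => ((ι P).comp (h P)).comp (Ideal.Quotient.mk P.1)),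
    Set.finite_range _, ?_⟩
  intro F _ _ φ
  have : (RingHom.ker φ).IsPrime := RingHom.ker_isPrime φ
  obtain ⟨P, hP, hPle⟩ := Ideal.exists_minimalPrimes_le (I := (⊥ : Ideal A)) (J := RingHom.ker φ)
    bot_le
  let Q : minimalPrimes A := ⟨P, hP⟩
  let ψ : A ⧸ Q.1 →+* F := Ideal.Quotient.lift Q.1 φ (fun a ha => hPle ha)
  obtain ⟨τ, hτ⟩ := hh Q F ψ
  obtain ⟨σ, hσ⟩ := FB2_ext (L Q) M F (ι Q) τ
  refine ⟨_, ⟨Q, rfl⟩, σ, ?_⟩
  intro s hs
  have h1 := hτ s hs
  have h2 : ψ (Ideal.Quotient.mk Q.1 s) = φ s := Ideal.Quotient.lift_mk _ _ _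
  rw [h2] at h1
  rw [h1, ← hσ]
  rfl

end Pool.Agent.FPZ
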